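import Pool.Agent.Helper91.SY.Heads

/-! Packet SY-AB. -/

set_option autoImplicit false

open Set Filter Topology
open scoped ContDiff

namespace Pool.Agent.Helper81.SY

open Pool.Agent.Helper91.SY

theorem w0_anti {n : ℕ} (u v : V n) : w0 u v = -w0 v u := by
  unfold w0
  rw [← Finset.sum_neg_distrib]
  refine Finset.sum_congr rfl fun i _ => ?_
  ring

/-- the conjugate of a translation -/
def cj {n : ℕ} (φ : V n ≃ V n) (e : V n) : V n ≃ V n :=
  φ.trans ((Equiv.addRight e).trans φ.symm)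

theorem cj_apply {n : ℕ} (φ : V n ≃ V n) (e x : V n) : cj φ e x = φ.symm (φ x + e) := rfl

theorem cj_symm_apply {n : ℕ} (φ : V n ≃ V n) (e x : V n) :
    (cj φ e).symm x = φ.symm (φ x - e) := by
  rw [Equiv.symm_apply_eq, cj_apply, Equiv.apply_symm_apply, sub_add_cancel,
    Equiv.symm_apply_apply]

theorem sm_cj {n : ℕ} {φ : V n ≃ V n} (h : Sm φ) (e : V n) : Sm (cj φ e) := by
  obtain ⟨h1, h2⟩ := h
  constructor
  · show ContDiff ℝ ∞ fun x => φ.symm (φ x + e)
    exact h2.comp (h1.add contDiff_const)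
  · have e1 : (fun x => (cj φ e).symm x) = fun x => φ.symm (φ x - e) :=
      funext fun x => cj_symm_apply φ e x
    rw [e1]
    exact h2.comp (h1.sub contDiff_const)

theorem pres_cj {n : ℕ} {η : Form n} {φ : V n ≃ V n} (h : Sm φ)
    (hφ : ∀ x u v, w0 (fderiv ℝ (fun y => φ y) x u) (fderiv ℝ (fun y => φ y) x v) = η x ![u, v])
    (e : V n) : Pres η (cj φ e) := by
  intro x u v
  have hd : Differentiable ℝ fun y => φ y := h.1.differentiable (by simp)
  have hg : Differentiable ℝ fun y => cj φ e y := (sm_cj h e).1.differentiable (by simp)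
  have key : ∀ u, fderiv ℝ (fun y => φ y) (cj φ e x) (fderiv ℝ (fun y => cj φ e y) x u) =
      fderiv ℝ (fun y => φ y) x u := by
    intro u
    have a1 : HasFDerivAt (fun y => φ (cj φ e y))
        ((fderiv ℝ (fun y => φ y) (cj φ e x)).comp (fderiv ℝ (fun y => cj φ e y) x)) x :=
      (hd (cj φ e x)).hasFDerivAt.comp x (hg x).hasFDerivAt
    have a2 : (fun y => φ (cj φ e y)) = fun y => φ y + e := by
      funext y
      rw [cj_apply, Equiv.apply_symm_apply]
    rw [a2] at a1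
    have a3 : HasFDerivAt (fun y => φ y + e) (fderiv ℝ (fun y => φ y) x) x :=
      (hd x).hasFDerivAt.add_const e
    have a4 := congrArg (fun L : V n →L[ℝ] V n => L u) (a1.unique a3)
    exact a4
  rw [← hφ, key, key, hφ]

theorem atInf_cj {n : ℕ} {φ : V n ≃ V n} {K : Set (V n)} (hK : IsCompact K)
    (h : ∀ x, x ∉ K → φ x = x) (e : V n) : AtInf (fun x => cj φ e x) (fun x => x + e) := by
  refine ⟨K ∪ (fun x => x - e) '' K, hK.union (hK.image (continuous_id.sub continuous_const)),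
    fun x hx => ?_⟩
  rw [mem_union, not_or] at hx
  have h1 : x + e ∉ K := fun h1 => hx.2 ⟨x + e, h1, add_sub_cancel_right x e⟩
  show cj φ e x = x + e
  rw [cj_apply, h x hx.1, Equiv.symm_apply_eq, h _ h1]

theorem ab_ (hCX : StmtCX) : StmtAB := by
  intro n η _ h
  obtain ⟨φ, hφ, ⟨K, hK, hK1⟩, hφη⟩ := h
  have hd : Differentiable ℝ fun y => φ y := hφ.1.differentiable (by simp)
  have hds : Differentiable ℝ fun y => φ.symm y := hφ.2.differentiable (by simp)
  constructor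
  · intro e₁ e₂ _
    refine ⟨cj φ e₁, cj φ e₂, sm_cj hφ e₁, sm_cj hφ e₂, pres_cj hφ hφη e₁, pres_cj hφ hφη e₂,
      atInf_cj hK hK1 e₁, atInf_cj hK hK1 e₂, fun x => ?_⟩
    rw [cj_apply, cj_apply, cj_apply, cj_apply, Equiv.apply_symm_apply, Equiv.apply_symm_apply,
      add_right_comm]
  · intro ℓ₁ ℓ₂ _
    obtain ⟨c1, -, -, -⟩ := hCX n
    obtain ⟨e₁, he₁⟩ := c1 ℓ₁
    obtain ⟨e₂, he₂⟩ := c1 ℓ₂
    have hat : ∀ ℓ : V n →L[ℝ] ℝ, AtInf (fun x => ℓ (φ x)) (fun x => ℓ x) := fun ℓ =>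
      ⟨K, hK, fun x hx => by
        show ℓ (φ x) = ℓ x
        rw [hK1 x hx]⟩
    refine ⟨fun x => ℓ₁ (φ x), fun x => ℓ₂ (φ x), ℓ₁.contDiff.comp hφ.1, ℓ₂.contDiff.comp hφ.1,
      hat ℓ₁, hat ℓ₂, w0 e₁ e₂, fun x X₁ X₂ h1 h2 => ?_⟩
    have key : ∀ (ℓ : V n →L[ℝ] ℝ) (e X : V n), (∀ v, w0 e v = ℓ v) →
        HamAt η (fun x => ℓ (φ x)) x X →
        ∀ v, w0 (fderiv ℝ (fun y => φ y) x X) (fderiv ℝ (fun y => φ y) x v) =
          w0 e (fderiv ℝ (fun y => φ y) x v) := by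
      intro ℓ e X he hX v
      have a1 : HasFDerivAt (fun y => ℓ (φ y)) (ℓ.comp (fderiv ℝ (fun y => φ y) x)) x :=
        ℓ.hasFDerivAt.comp x (hd x).hasFDerivAt
      rw [hφη, hX v, a1.fderiv, he]
      rfl
    have hid : ∀ e, fderiv ℝ (fun y => φ y) x (fderiv ℝ (fun y => φ.symm y) (φ x) e) = e := by
      intro e
      have hd' : DifferentiableAt ℝ (fun y => φ y) (φ.symm (φ x)) := hd _
      have a1 : HasFDerivAt (fun y => φ (φ.symm y))
          ((fderiv ℝ (fun y => φ y) (φ.symm (φ x))).comp (fderiv ℝ (fun y => φ.symm y) (φ x)))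
          (φ x) :=
        hd'.hasFDerivAt.comp (φ x) (hds (φ x)).hasFDerivAt
      have a2 : (fun y => φ (φ.symm y)) = fun y => y := funext fun y => φ.apply_symm_apply y
      rw [a2, Equiv.symm_apply_apply] at a1
      have a3 := congrArg (fun L : V n →L[ℝ] V n => L e) (a1.unique (hasFDerivAt_id (φ x)))
      exact a3
    have b1 := key ℓ₁ e₁ X₁ he₁ h1 X₂
    have b2 := key ℓ₂ e₂ X₂ he₂ h2 (fderiv ℝ (fun y => φ.symm y) (φ x) e₁)
    rw [hid] at b2
    rw [← hφη, b1, w0_anti, b2, ← w0_anti]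

end Pool.Agent.Helper81.SY
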