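import Pool.Agent.Helper91.SY.Heads
import Pool.Agent.Helper22.SY.CM
import Pool.Agent.Helper86.SY.CB

/-! Packet SY-B2. -/

set_option autoImplicit false

open Set Filter Topology
open scoped ContDiff

namespace Pool.Agent.Helper81.SY

open Pool.Agent.Helper91.SY
open Pool.Agent.Helper22.SY (lip_of_const)
open Pool.Agent.Helper86.SY (atInf_radius tr_atInf)

theorem flow_add {E : Type} [NormedAddCommGroup E] [NormedSpace ℝ E] [FiniteDimensional ℝ E]
    {X : E → E} {Φ : ℝ → E → E} {R : ℝ} {e : E} (hX : ContDiff ℝ ∞ X)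
    (hR : ∀ x, R ≤ ‖x‖ → X x = e) (hF : Flow X Φ) (s t : ℝ) (x : E) :
    Φ (s + t) x = Φ s (Φ t x) := by
  obtain ⟨K, hK⟩ := lip_of_const hX hR
  have hu : (fun s => Φ (s + t) x) = fun s => Φ s (Φ t x) := by
    apply ODE_solution_unique_univ (v := fun _ => X) (s := fun _ => univ) (K := K) (t₀ := 0)
    · intro t
      exact hK.lipschitzOnWith
    · intro r
      refine ⟨?_, mem_univ _⟩
      have h1 : HasDerivAt (fun s : ℝ => s + t) 1 r := (hasDerivAt_id r).add_const t
      have h2 := (hF.deriv (r + t) x).scomp r h1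
      rw [one_smul] at h2
      exact h2
    · intro r
      exact ⟨hF.deriv r _, mem_univ _⟩
    · show Φ (0 + t) x = Φ 0 (Φ t x)
      rw [zero_add, hF.zero]
  exact congrFun hu s

theorem b2_ (hTO : StmtTO) (hCW : StmtCW) (hCX : StmtCX) : StmtB2 := by
  intro n η hη h
  obtain ⟨ℓ, f, hℓ, hf, ha, hγ⟩ := h
  obtain ⟨B, B0, R₀, hR₀, hS, hFar, hB, hB0⟩ := hCW n η hη
  obtain ⟨r₁, hr₁⟩ := atInf_radius ha
  obtain ⟨c1, -, -, -⟩ := hCX n
  obtain ⟨e, he⟩ := c1 ℓ
  set R : ℝ := max R₀ r₁ with hR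
  have hR0 : 0 ≤ R := hR₀.trans (le_max_left _ _)
  have hFar' : Far R B B0 := fun x hx => hFar x ((le_max_left _ _).trans hx)
  have hf' : ∀ x, R ≤ ‖x‖ → f x = ℓ x := fun x hx => hr₁ x ((le_max_right _ _).trans hx)
  obtain ⟨X, Φ, g, sX, hX, iX, hΦ, -, hg, hgs, sg, pg, tg⟩ :=
    hTO (V n) B B0 R f ℓ e hR0 hS hFar' hf hf' (fun v => by rw [hB0]; exact he v)
  have hadd := flow_add sX iX hΦ
  refine ⟨e, g, ?_, sg, ?_, tr_atInf tg, ?_⟩
  · rintro rfl
    apply hℓ
    refine ContinuousLinearMap.ext fun v => ?_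
    rw [← he]
    simp [w0]
  · intro x u v
    rw [← hB, ← hB]
    exact pg x u v
  · rintro p ⟨C, hC⟩
    have hpow : ∀ (k : ℤ) (p : V n), (g ^ k) p = Φ k p := by
      intro k
      induction k using Int.induction_on with
      | zero =>
        intro p
        simp [hΦ.zero]
      | succ k ih =>
        intro p
        rw [zpow_add_one, Equiv.Perm.mul_apply, ih, hg, ← hadd]
        push_cast
        rfl
      | pred k ih =>
        intro p
        rw [zpow_sub_one, Equiv.Perm.mul_apply, ih, Equiv.Perm.inv_def, hgs, ← hadd]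
        push_cast
        rfl
    refine hγ (fun t => Φ t p) (fun t => (hΦ.deriv t p).differentiableAt) ?_ ?_
    · intro t v
      rw [(hΦ.deriv t p).deriv, ← hB]
      exact hX _ v
    · have hcomp : IsCompact ((fun q : ℝ × V n => Φ q.1 q.2) ''
          (Icc (0 : ℝ) 1 ×ˢ Metric.closedBall (0 : V n) C)) :=
        (isCompact_Icc.prod (isCompact_closedBall _ _)).image hΦ.smooth.continuous
      obtain ⟨C', hC'⟩ := hcomp.isBounded.subset_closedBall (0 : V n)
      refine ⟨C', fun t => ?_⟩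
      have h1 : Φ t p = Φ (t - ⌊t⌋) (Φ ⌊t⌋ p) := by
        rw [← hadd]
        congr 1
        ring
      have h2 : Φ t p ∈ Metric.closedBall (0 : V n) C' := by
        refine hC' ⟨(t - ⌊t⌋, Φ ⌊t⌋ p), ⟨⟨?_, ?_⟩, ?_⟩, h1.symm⟩
        · exact sub_nonneg.2 (Int.floor_le t)
        · have := Int.lt_floor_add_one t
          show t - ⌊t⌋ ≤ 1
          linarith
        · rw [mem_closedBall_zero_iff, ← hpow]
          exact hC _
      rwa [mem_closedBall_zero_iff] at h2

end Pool.Agent.Helper81.SY
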